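import Mathlib

set_option autoImplicit false

namespace Pool.Agent.Results.MP_ebdc6e_an.Osss

open MeasureTheory ProbabilityTheory Finset Filter Topology

/-- The sign attached to a bit. -/
def sg (b : Bool) : ℝ := if b then 1 else -1

/-- The uniform average over the cube. -/
noncomputable def avg {n : ℕ} (g : (Fin n → Bool) → ℝ) : ℝ := (∑ x, g x) / 2 ^ n

/-- The variance under the uniform measure. -/
noncomputable def var {n : ℕ} (f : (Fin n → Bool) → ℝ) : ℝ := avg fun x => (f x - avg f) ^ 2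

/-- The influence of coordinate `i`. -/
noncomputable def infl {n : ℕ} (f : (Fin n → Bool) → ℝ) (i : Fin n) : ℝ :=
  avg fun x => if f x ≠ f (Function.update x i (!x i)) then 1 else 0

/-- A discrete-time fractional query algorithm computing `f` with zero error; `ξ` is the terminal
value of `X`, written as a bit vector. -/
structure Computes {n : ℕ} {Ω : Type} [MeasurableSpace Ω] (μ : Measure Ω)
    (X : ℕ → Ω → Fin n → ℝ) (hX : ∀ t, StronglyMeasurable (X t)) (ξ : Ω → Fin n → Bool)
    (τ : Ω → ℕ) (A : (Fin n → ℝ) → ℝ) (f : (Fin n → Bool) → ℝ) : Prop where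
  range : ∀ t ω i, X t ω i ∈ Set.Icc (-1 : ℝ) 1
  start : ∀ ω, X 0 ω = 0
  limit : ∀ ω, Tendsto (fun t => X t ω) atTop (𝓝 fun i => sg (ξ ω i))
  law : ∀ x, μ.real {ω | ξ ω = x} = 1 / 2 ^ n
  stop : IsStoppingTime (Filtration.natural X hX) fun ω => (τ ω : WithTop ℕ)
  mart : ∀ S : Finset (Fin n),
    Martingale (fun t ω => ∏ i ∈ S, X t ω i) (Filtration.natural X hX) μ
  out : ∀ ω, A (X (τ ω) ω) = f (ξ ω)

/-- The terminal bits. -/
def xi (ω : Fin 16) : Fin 2 → Bool :=
  ![decide ((ω.1 % 2 = 1) ↔ 4 ≤ ω.1), decide (ω.1 / 2 % 2 = 1)]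

/-- Twice the process. -/
def Z (t : ℕ) (ω : Fin 16) (i : Fin 2) : ℤ :=
  if t = 0 then 0
  else if 3 ≤ t ∨ (t = 2 ∧ (ω.1 % 2 = 1 ↔ i = 0)) then (if xi ω i then 2 else -2)
  else if i = 0 then (if ω.1 % 2 = 1 then 1 else -1) else 0

/-- The stopping time. -/
def tau (ω : Fin 16) : ℕ := if Z 2 ω 0 = 2 ∨ Z 2 ω 1 = 2 then 2 else 3

/-- Representatives of the atoms. -/
def rep (t : ℕ) (ω : Fin 16) : Fin 16 :=
  if t = 0 then 0 else if t = 1 then ω % 2 else if ω.1 % 2 = 1 then (if 4 ≤ ω.1 then 5 else 1)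
  else ω % 4

theorem rep1 : ∀ t < 3, ∀ j ≤ t, ∀ ω i, Z j ω i = Z j (rep t ω) i := by decide +kernel

theorem rep2 : ∀ t < 3, ∀ (S : Finset (Fin 2)) (c : Fin 16),
    ∑ ω with rep t ω = c, (∏ i ∈ S, Z (t + 1) ω i - ∏ i ∈ S, Z t ω i) = 0 := by decide +kernel

theorem Z_ge (t : ℕ) (h : 3 ≤ t) (ω : Fin 16) (i : Fin 2) :
    Z t ω i = if xi ω i then 2 else -2 := by
  rw [Z, if_neg (by omega), if_pos (.inl h)]

/-- The process. -/
noncomputable def X (t : ℕ) (ω : Fin 16) (i : Fin 2) : ℝ := Z t ω i / 2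

theorem X_eq (t : ℕ) (ω : Fin 16) (i : Fin 2) : X t ω i = 1 ↔ Z t ω i = 2 := by
  rw [X, div_eq_one_iff_eq two_ne_zero]
  exact_mod_cast Iff.rfl

theorem int_eq (g : Fin 16 → ℝ) : ∫ ω, g ω ∂(uniformOn Set.univ) = (∑ ω, g ω) / 16 := by
  rw [integral_fintype Integrable.of_finite, sum_div]
  refine sum_congr rfl fun ω _ => ?_
  simp [Measure.real, uniformOn_univ, div_eq_inv_mul]

theorem result : ∃ (n : ℕ) (f : (Fin n → Bool) → ℝ) (Ω : Type) (_ : MeasurableSpace Ω)
    (μ : Measure Ω) (_ : IsProbabilityMeasure μ) (X : ℕ → Ω → Fin n → ℝ)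
    (hX : ∀ t, StronglyMeasurable (X t)) (ξ : Ω → Fin n → Bool) (τ : Ω → ℕ)
    (A : (Fin n → ℝ) → ℝ), (∀ x, f x = 1 ∨ f x = -1) ∧ Computes μ X hX ξ τ A f ∧
      ∑ i, (∫ ω, X (τ ω) ω i ^ 2 ∂μ) * infl f i < var f := by
  classical
  have hX : ∀ t, StronglyMeasurable (X t) := fun _ => StronglyMeasurable.of_discrete
  refine ⟨2, fun x => sg (x 0 || x 1), Fin 16, inferInstance, uniformOn Set.univ, inferInstance, X,
    hX, xi, tau, fun v => if v 0 = 1 ∨ v 1 = 1 then 1 else -1, fun x => ?_,
    ⟨fun t ω i => ?_, fun ω => ?_, fun ω => ?_, fun x => ?_, fun t => ?_, fun S => ?_,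
      fun ω => ?_⟩, ?_⟩
  · simp only [sg]
    split_ifs <;> simp
  · unfold X Z
    split_ifs <;> norm_num
  · funext i
    simp [X, Z]
  · refine tendsto_const_nhds.congr' ?_
    filter_upwards [eventually_ge_atTop 3] with t ht
    funext i
    rw [X, Z_ge t ht, sg]
    split_ifs <;> norm_num
  · have h : ∀ x, (univ.filter fun ω => xi ω = x).card = 4 := by decide +kernel
    rw [Measure.real, uniformOn_univ, ← coe_filter_univ, Measure.count_apply_finset, h]
    norm_num
  · by_cases h3 : 3 ≤ t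
    · convert MeasurableSet.univ
      refine Set.eq_univ_of_forall fun ω => ?_
      have : tau ω ≤ t := by unfold tau; split_ifs <;> omega
      exact WithTop.coe_le_coe.2 this
    by_cases h2 : t = 2
    · subst h2
      have := (Filtration.stronglyAdapted_natural hX 2).measurable
        (t := {v | v 0 = 1 ∨ v 1 = 1}) (by measurability)
      convert this using 1
      ext ω
      refine WithTop.coe_le_coe.trans ?_
      simp only [Set.mem_preimage, Set.mem_ofPred_eq, X_eq, tau]
      split_ifs with h <;> simp [h]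
    · convert MeasurableSet.empty
      refine Set.eq_empty_of_forall_notMem fun ω h => ?_
      have : tau ω ≤ t := WithTop.coe_le_coe.1 h
      unfold tau at this
      split_ifs at this <;> omega
  · refine martingale_of_setIntegral_eq_succ (fun t => ?_) (fun _ => Integrable.of_finite)
      fun t s hs => ?_
    · have := (Filtration.stronglyAdapted_natural hX t).measurable
      exact (Finset.measurable_prod S fun i _ => (measurable_pi_apply i).comp this).stronglyMeasurable
    by_cases h3 : 3 ≤ t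
    · simp only [X, Z_ge t h3, Z_ge (t + 1) (by omega)]
    have sat : ∀ ω, ω ∈ s ↔ rep t ω ∈ s := by
      let M : MeasurableSpace (Fin 16) :=
        { MeasurableSet' := fun s => ∀ ω, ω ∈ s ↔ rep t ω ∈ s
          measurableSet_empty := fun _ => Iff.rfl
          measurableSet_compl := fun s h ω => not_congr (h ω)
          measurableSet_iUnion := fun s h ω => by simp only [Set.mem_iUnion, ← h _ ω] }
      refine (iSup₂_le ?_ : Filtration.natural X hX t ≤ M) s hs
      rintro j hj _ ⟨u, -, rfl⟩ ω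
      have : X j ω = X j (rep t ω) := funext fun i => by rw [X, X, rep1 t (by omega) j hj]
      rw [Set.mem_preimage, Set.mem_preimage, this]
    symm
    rw [← sub_eq_zero, ← integral_sub Integrable.of_finite Integrable.of_finite,
      ← integral_indicator MeasurableSet.of_discrete, int_eq, div_eq_zero_iff,
      ← sum_fiberwise univ (rep t)]
    refine .inl (sum_eq_zero fun c _ => ?_)
    by_cases hc : c ∈ s
    · rw [sum_congr rfl fun ω hω => Set.indicator_of_mem
        ((sat ω).2 (by rw [(mem_filter.1 hω).2]; exact hc)) _]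
      have := congrArg (fun z : ℤ => (z : ℝ) / 2 ^ S.card) (rep2 t (by omega) S c)
      simpa [X, prod_div_distrib, sum_div, sub_div] using this
    · exact sum_eq_zero fun ω hω => Set.indicator_of_notMem
        (fun h => hc ((mem_filter.1 hω).2 ▸ (sat ω).1 h)) _
  · have h : ∀ ω, (Z (tau ω) ω 0 = 2 ∨ Z (tau ω) ω 1 = 2) ↔ (xi ω 0 || xi ω 1) = true := by
      decide +kernel
    simp only [X_eq, h, sg]
  · have h : ∀ i, ∑ ω, Z (tau ω) ω i ^ 2 = ![52, 40] i := by decide +kernel
    have h1 : ∀ i, ∫ ω, X (tau ω) ω i ^ 2 ∂(uniformOn Set.univ) = (![52, 40] i : ℤ) / 64 := fun i => by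
      rw [int_eq, ← h]
      simp only [X, div_pow, ← sum_div]
      push_cast
      ring
    have h2 : ∀ g : (Fin 2 → Bool) → ℝ, avg g = (g ![true, true] + g ![true, false] +
        g ![false, true] + g ![false, false]) / 4 := fun g => by
      rw [avg, show (univ : Finset (Fin 2 → Bool)) =
        {![true, true], ![true, false], ![false, true], ![false, false]} by decide,
        sum_insert (by decide), sum_insert (by decide), sum_pair (by decide)]
      ring
    simp only [h1, Fin.sum_univ_two, infl, var, h2]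
    norm_num [sg]

end Pool.Agent.Results.MP_ebdc6e_an.Osss
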